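import Mathlib

set_option autoImplicit false

/-!
For every `d` there is a `d`-degenerate graph on which the players win the hat guessing game with
`a d` colours, where `a 0 = 1` and `a (d + 1) = a d * (a d + 1)`, i.e. `1, 2, 6, 42, 1806, ...`.
-/

namespace Pool.Agent.Results.MP_994fee_co.DegenerateLowerBound

/-- `1, 2, 6, 42, 1806, ...` -/
def syl : ℕ → ℕ
  | 0 => 1
  | d + 1 => syl d * (syl d + 1)

lemma syl_pos (d : ℕ) : 1 ≤ syl d := by
  induction d with
  | zero => exact le_refl 1
  | succ d ih => exact Nat.mul_pos ih (Nat.succ_pos _)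

/-- A gadget over the set `C` of contexts: a graph whose vertices see the context and their
neighbours; the set of the contexts in which, for the colouring `y`, nobody guesses correctly
satisfies `P`. -/
def Gad (q r : ℕ) (C : Type) (P : Set C → Prop) : Prop :=
  ∃ (V : Type) (_ : Fintype V) (G : SimpleGraph V) (lev : V → ℕ)
    (g : C → (V → Fin q) → V → Fin q),
    (∀ v, lev v < r) ∧ (∀ v, {u : V | G.Adj v u ∧ lev u ≤ lev v}.ncard ≤ lev v) ∧
    (∀ c y y' v, (∀ u, G.Adj v u → y u = y' u) → g c y v = g c y' v) ∧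
    ∀ y : V → Fin q, P {c : C | ∀ v, g c y v ≠ y v}

lemma gad_zero (q : ℕ) (C : Type) : Gad q 0 C (fun S => S = Set.univ) := by
  refine ⟨Empty, inferInstance, ⊥, fun v => v.elim, fun _ _ v => v.elim, fun v => v.elim,
    fun v => v.elim, fun _ _ _ v => v.elim, ?_⟩
  intro y
  ext c
  simp only [Set.mem_ofPred_eq, Set.mem_univ, iff_true]
  intro v
  exact v.elim

lemma exists_psi {q : ℕ} {C : Type} (A : Finset C) (B : Set (Fin q)) (hq : 0 < q)
    (h : B.ncard ≤ A.card) : ∃ ψ : C → Fin q, ∀ b ∈ B, ∃ c ∈ A, ψ c = b := by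
  classical
  have : Fintype B := Fintype.ofFinite B
  have h1 : Fintype.card B ≤ Fintype.card A := by
    rw [Fintype.card_coe, ← Nat.card_eq_fintype_card]
    exact h
  obtain ⟨e⟩ := Function.Embedding.nonempty_of_card_le h1
  refine ⟨fun c => if h : ∃ b : B, (e b : C) = c then (h.choose : Fin q) else ⟨0, hq⟩, ?_⟩
  intro b hb
  refine ⟨(e ⟨b, hb⟩ : C), (e ⟨b, hb⟩).2, ?_⟩
  have hex : ∃ b' : B, (e b' : C) = (e ⟨b, hb⟩ : C) := ⟨⟨b, hb⟩, rfl⟩
  dsimp only
  rw [dif_pos hex]
  have h2 : hex.choose = ⟨b, hb⟩ := e.injective (Subtype.ext hex.choose_spec)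
  rw [h2]

/-- adjacency of the cone -/
def adjO {V : Type} (G : SimpleGraph V) : Option V → Option V → Prop
  | none, none => False
  | none, some _ => True
  | some _, none => True
  | some u, some v => G.Adj u v

/-- disjoint cones -/
def cones (I : Type) {V : Type} (G : SimpleGraph V) : SimpleGraph (I × Option V) where
  Adj a b := a.1 = b.1 ∧ adjO G a.2 b.2
  symm := by
    refine ⟨?_⟩
    rintro ⟨i, x⟩ ⟨j, y⟩ ⟨h1, h2⟩
    refine ⟨h1.symm, ?_⟩
    cases x <;> cases y <;> simp_all [adjO]
    exact h2.symm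
  loopless := by
    refine ⟨?_⟩
    rintro ⟨i, x⟩ ⟨h1, h2⟩
    cases x <;> simp_all [adjO]

lemma step {q r m : ℕ} (C : Type) [Finite C] (hq : 0 < q)
    (h : Gad q r (C × Fin q) (fun S => ∀ A : Finset C, A.card = m →
      {b : Fin q | ∀ c ∈ A, (c, b) ∈ S}.ncard ≤ m)) :
    Gad q (r + 1) C (fun S => S.ncard < m) := by
  classical
  have hC : Fintype C := Fintype.ofFinite C
  obtain ⟨V, hV, G, lev, g, h1, h2, h3, h4⟩ := h
  let I : Type := {A : Finset C // A.card = m}
  -- the set of alive pairs seen by the apex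
  let R : I → (I × Option V → Fin q) → Set (C × Fin q) := fun i y =>
    {p | ∀ v, g p (fun u => y (i, some u)) v ≠ y (i, some v)}
  have hR : ∀ i y, {b : Fin q | ∀ c ∈ i.1, (c, b) ∈ R i y}.ncard ≤ i.1.card := by
    intro i y
    rw [i.2]
    exact h4 (fun u => y (i, some u)) i.1 i.2
  choose ψ hψ using fun i y => exists_psi i.1 {b : Fin q | ∀ c ∈ i.1, (c, b) ∈ R i y} hq (hR i y)
  -- the apex guesses from the colours of its neighbours only
  let y0 : I → (I × Option V → Fin q) → (I × Option V → Fin q) := fun i y p =>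
    match p.2 with
    | none => ⟨0, hq⟩
    | some u => y (i, some u)
  refine ⟨I × Option V, inferInstance, cones I G, fun p => match p.2 with
    | none => 0
    | some v => lev v + 1, fun c y p => match p.2 with
    | none => ψ p.1 (y0 p.1 y) c
    | some v => g (c, y (p.1, none)) (fun u => y (p.1, some u)) v, ?_, ?_, ?_, ?_⟩
  · rintro ⟨i, x⟩
    cases x with
    | none => exact Nat.succ_pos r
    | some v => exact Nat.succ_lt_succ (h1 v)
  · rintro ⟨i, x⟩
    cases x with
    | none =>
      dsimp only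
      rw [Nat.le_zero, Set.ncard_eq_zero]
      ext ⟨j, y⟩
      simp only [Set.mem_ofPred_eq, Set.mem_empty_iff_false, iff_false, not_and]
      rintro ⟨_, h6⟩
      cases y with
      | none => exact absurd h6 (by simp [adjO])
      | some w => simp
    | some v =>
      dsimp only
      have hsub : {u : I × Option V | (cones I G).Adj (i, some v) u ∧
          (match u.2 with
            | none => 0
            | some v => lev v + 1) ≤ lev v + 1} ⊆
          insert (i, none) ((fun w => ((i, some w) : I × Option V)) ''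
            {w | G.Adj v w ∧ lev w ≤ lev v}) := by
        rintro ⟨j, y⟩ ⟨⟨h5, h6⟩, h7⟩
        dsimp only at h5 h6 h7
        subst h5
        cases y with
        | none => exact Set.mem_insert _ _
        | some w =>
          refine Set.mem_insert_of_mem _ ⟨w, ⟨h6, ?_⟩, rfl⟩
          exact Nat.le_of_succ_le_succ h7
      refine (Set.ncard_le_ncard hsub (Set.toFinite _)).trans ?_
      refine (Set.ncard_insert_le _ _).trans ?_
      refine Nat.succ_le_succ ?_
      exact (Set.ncard_image_le (Set.toFinite _)).trans (h2 v)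
  · rintro c y y' ⟨i, x⟩ hyy
    cases x with
    | none =>
      dsimp only
      have : y0 i y = y0 i y' := by
        funext p
        dsimp only [y0]
        cases hp : p.2 with
        | none => rfl
        | some u => exact hyy (i, some u) ⟨rfl, trivial⟩
      rw [this]
    | some v =>
      dsimp only
      have h5 : y (i, none) = y' (i, none) := hyy (i, none) ⟨rfl, trivial⟩
      rw [h5]
      exact h3 _ _ _ v fun u hu => hyy (i, some u) ⟨rfl, hu⟩
  · intro y
    by_contra hcon
    push Not at hcon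
    set S : Set C := {c : C | ∀ v : I × Option V, (match v.2 with
      | none => ψ v.1 (y0 v.1 y) c
      | some w => g (c, y (v.1, none)) (fun u => y (v.1, some u)) w) ≠ y v} with hS
    have hSc : m ≤ S.toFinset.card := by
      rw [← Set.ncard_eq_toFinset_card']
      exact hcon
    obtain ⟨A, hA1, hA2⟩ := Finset.exists_subset_card_eq hSc
    let i : I := ⟨A, hA2⟩
    have hAS : ∀ c ∈ A, c ∈ S := fun c hc => Set.mem_toFinset.mp (hA1 hc)
    have hb : y (i, none) ∈ {b : Fin q | ∀ c ∈ i.1, (c, b) ∈ R i (y0 i y)} := by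
      intro c hc v
      exact hAS c hc (i, some v)
    obtain ⟨c, hc1, hc2⟩ := hψ i (y0 i y) _ hb
    exact hAS c hc1 (i, none) hc2

lemma gads (d r : ℕ) (hr : r ≤ d) : ∀ (C : Type) [Finite C],
    Gad (syl d) (r + 1) C (fun S => S.ncard < syl (d - r)) := by
  induction r with
  | zero =>
    intro C _
    refine step C (syl_pos d) ?_
    obtain ⟨V, hV, G, lev, g, h1, h2, h3, h4⟩ := gad_zero (syl d) (C × Fin (syl d))
    refine ⟨V, hV, G, lev, g, h1, h2, h3, fun y A _ => ?_⟩
    refine (Set.ncard_le_card _).trans ?_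
    rw [Nat.card_eq_fintype_card, Fintype.card_fin]
    simp
  | succ r ih =>
    intro C _
    refine step C (syl_pos d) ?_
    obtain ⟨V, hV, G, lev, g, h1, h2, h3, h4⟩ := ih (by omega) (C × Fin (syl d))
    refine ⟨V, hV, G, lev, g, h1, h2, h3, fun y A hA => ?_⟩
    have h5 := h4 y
    have h6 : d - r = (d - (r + 1)) + 1 := by omega
    rw [h6] at h5
    set m := syl (d - (r + 1)) with hm
    change _ < m * (m + 1) at h5
    set S := {c : C × Fin (syl d) | ∀ v, g c y v ≠ y v} with hS
    set B : Set (Fin (syl d)) := {b | ∀ c ∈ A, (c, b) ∈ S} with hB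
    have h7 : ((A : Set C) ×ˢ B) ⊆ S := by
      rintro ⟨c, b⟩ ⟨hc, hb⟩
      exact hb c hc
    have h8 := Set.ncard_le_ncard h7 (Set.toFinite _)
    rw [Set.ncard_prod, Set.ncard_coe_finset, hA] at h8
    by_contra hcon
    push Not at hcon
    have h9 : m * (m + 1) ≤ m * B.ncard := Nat.mul_le_mul_left _ hcon
    omega

lemma syl_large (d : ℕ) (hd : 3 ≤ d) : 5 ^ (2 ^ (d - 1)) < syl d * 2 ^ (2 ^ (d - 1)) := by
  induction d, hd using Nat.le_induction with
  | base => decide
  | succ d hd ih =>
    obtain ⟨e, rfl⟩ : ∃ e, d = e + 1 := ⟨d - 1, by omega⟩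
    simp only [Nat.add_sub_cancel] at ih ⊢
    have h1 : 2 ^ (e + 1) = 2 ^ e * 2 := pow_succ 2 e
    rw [h1, pow_mul, pow_mul]
    have h2 : (5 ^ 2 ^ e) ^ 2 < (syl (e + 1) * 2 ^ 2 ^ e) ^ 2 :=
      Nat.pow_lt_pow_left ih (by norm_num)
    refine lt_of_lt_of_le h2 ?_
    rw [mul_pow]
    refine Nat.mul_le_mul_right _ ?_
    change syl (e + 1) ^ 2 ≤ syl (e + 1) * (syl (e + 1) + 1)
    nlinarith

/-- For all `d` there is a finite `d`-degenerate graph on which the players win the hat guessing
game with `a d` colours, where `a 0 = 1`, `a (d + 1) = a d * (a d + 1)`; `a d > (5/2) ^ 2 ^ (d-1)`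
for `d ≥ 3`. -/
theorem result : ∃ a : ℕ → ℕ, a 0 = 1 ∧ (∀ d, a (d + 1) = a d * (a d + 1)) ∧
    (∀ d, 3 ≤ d → 5 ^ (2 ^ (d - 1)) < a d * 2 ^ (2 ^ (d - 1))) ∧
    ∀ d : ℕ, ∃ (V : Type) (_ : Fintype V) (G : SimpleGraph V),
      (∃ ι : V → ℕ, Function.Injective ι ∧
          ∀ v : V, {w : V | G.Adj v w ∧ ι w < ι v}.ncard ≤ d) ∧
      ∃ s : V → (V → Fin (a d)) → Fin (a d),
            (∀ (v : V) (c c' : V → Fin (a d)),
                (∀ w : V, G.Adj v w → c w = c' w) → s v c = s v c') ∧
            ∀ c : V → Fin (a d), ∃ v : V, s v c = c v := by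
  refine ⟨syl, rfl, fun _ => rfl, syl_large, fun d => ?_⟩
  obtain ⟨V, hV, G, lev, g, h1, h2, h3, h4⟩ := gads d d le_rfl Unit
  refine ⟨V, hV, G, ?_, fun v c => g () c v, fun v c c' h => h3 () c c' v h, fun c => ?_⟩
  · let e := Fintype.equivFin V
    refine ⟨fun v => lev v * Fintype.card V + (e v : ℕ), ?_, ?_⟩
    · intro v w h
      dsimp only at h
      have hv := (e v).2
      have hw := (e w).2
      have h5 : lev v = lev w := by
        rcases lt_trichotomy (lev v) (lev w) with h6 | h6 | h6
        · have : (lev v + 1) * Fintype.card V ≤ lev w * Fintype.card V :=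
            Nat.mul_le_mul_right _ h6
          rw [add_mul, one_mul] at this
          omega
        · exact h6
        · have : (lev w + 1) * Fintype.card V ≤ lev v * Fintype.card V :=
            Nat.mul_le_mul_right _ h6
          rw [add_mul, one_mul] at this
          omega
      rw [h5] at h
      exact e.injective (Fin.ext (by omega))
    · intro v
      have hsub : {w : V | G.Adj v w ∧ lev w * Fintype.card V + (e w : ℕ) <
          lev v * Fintype.card V + (e v : ℕ)} ⊆ {w : V | G.Adj v w ∧ lev w ≤ lev v} := by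
        rintro w ⟨h5, h6⟩
        refine ⟨h5, ?_⟩
        by_contra h7
        push Not at h7
        have : (lev v + 1) * Fintype.card V ≤ lev w * Fintype.card V :=
          Nat.mul_le_mul_right _ h7
        rw [add_mul, one_mul] at this
        have hv := (e v).2
        omega
      refine (Set.ncard_le_ncard hsub (Set.toFinite _)).trans ((h2 v).trans ?_)
      have := h1 v
      omega
  · have h5 := h4 c
    rw [Nat.sub_self] at h5
    change _ < 1 at h5
    rw [Nat.lt_one_iff, Set.ncard_eq_zero (Set.toFinite _)] at h5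
    by_contra hcon
    push Not at hcon
    have : () ∈ ({c' : Unit | ∀ v, g c' c v ≠ c v} : Set Unit) := fun v => hcon v
    rw [h5] at this
    exact this

end Pool.Agent.Results.MP_994fee_co.DegenerateLowerBound
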